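import Mathlib

/-
Three finite combinatorial lemmas: a rank function of a preorder, a fixed point free
involution of an even set, and colourings of the elements of a set with two involutions.
-/

namespace Pool.Agent.Lib.P901b45c

/-- A finite preorder has a monotone integer valued function which is injective up to
equivalence. -/
theorem exists_rank {β : Type*} [Finite β] (R : β → β → Prop) (hr : ∀ a, R a a)
    (ht : ∀ a b c, R a b → R b c → R a c) :
    ∃ ρ : β → ℕ, (∀ a b, R a b → ρ a ≤ ρ b) ∧ ∀ a b, ρ a = ρ b → R a b ∧ R b a := by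
  classical
  have : Fintype β := Fintype.ofFinite β
  let P : Preorder β := { le := R, le_refl := hr, le_trans := ht }
  let q : β → LinearExtension (Antisymmetrization β (· ≤ ·)) := fun a =>
    toLinearExtension (toAntisymmetrization (· ≤ ·) a)
  have hq : ∀ a b : β, R a b → q a ≤ q b := by
    intro a b h
    apply toLinearExtension.monotone
    exact toAntisymmetrization_le_toAntisymmetrization_iff.2 h
  have hq' : ∀ a b : β, q a = q b → R a b ∧ R b a := by
    intro a b h
    have h1 : toAntisymmetrization (· ≤ ·) a = toAntisymmetrization (· ≤ ·) b := h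
    have h2 := Quotient.exact h1
    exact h2
  refine ⟨fun a => (Finset.univ.filter fun c => q c < q a).card, ?_, ?_⟩
  · intro a b h
    apply Finset.card_le_card
    intro c hc
    have h1 := (Finset.mem_filter.1 hc).2
    exact Finset.mem_filter.2 ⟨Finset.mem_univ _, lt_of_lt_of_le h1 (hq a b h)⟩
  · intro a b h
    have key : ∀ a b : β, q a < q b →
        (Finset.univ.filter fun c => q c < q a).card < (Finset.univ.filter fun c => q c < q b).card := by
      intro a b hab
      apply Finset.card_lt_card
      refine ⟨?_, ?_⟩
      · intro c hc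
        have h1 := (Finset.mem_filter.1 hc).2
        exact Finset.mem_filter.2 ⟨Finset.mem_univ _, h1.trans hab⟩
      · intro h1
        have h2 := h1 (Finset.mem_filter.2 ⟨Finset.mem_univ a, hab⟩)
        exact lt_irrefl _ (Finset.mem_filter.1 h2).2
    apply hq'
    rcases lt_trichotomy (q a) (q b) with h1 | h1 | h1
    · exact absurd h (key a b h1).ne
    · exact h1
    · exact absurd h.symm (key b a h1).ne

/-- An even finite set has a fixed point free involution. -/
theorem exists_fpf {α : Type*} [DecidableEq α] (n : ℕ) : ∀ F : Finset α, F.card = 2 * n →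
    ∃ t : α → α, ∀ x ∈ F, t x ∈ F ∧ t (t x) = x ∧ t x ≠ x := by
  induction n with
  | zero =>
    intro F hF
    have h1 : F = ∅ := Finset.card_eq_zero.1 (by simpa using hF)
    subst h1
    exact ⟨id, by simp⟩
  | succ n ih =>
    intro F hF
    have h1 : F.Nonempty := Finset.card_pos.1 (by omega)
    obtain ⟨x, hx⟩ := h1
    have h2 : (F.erase x).card = 2 * n + 1 := by
      rw [Finset.card_erase_of_mem hx]; omega
    obtain ⟨y, hy⟩ : (F.erase x).Nonempty := Finset.card_pos.1 (by omega)
    have h3 : ((F.erase x).erase y).card = 2 * n := by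
      rw [Finset.card_erase_of_mem hy]; omega
    obtain ⟨t, ht⟩ := ih _ h3
    have hyx : y ≠ x := (Finset.mem_erase.1 hy).1
    have hyF : y ∈ F := (Finset.mem_erase.1 hy).2
    refine ⟨fun z => if z = x then y else if z = y then x else t z, ?_⟩
    intro z hz
    by_cases hzx : z = x
    · subst hzx
      simp [hyx, hyF]
    · by_cases hzy : z = y
      · subst hzy
        simp [hyx, hx, Ne.symm hyx]
      · have hz' : z ∈ (F.erase x).erase y :=
          Finset.mem_erase.2 ⟨hzy, Finset.mem_erase.2 ⟨hzx, hz⟩⟩
        obtain ⟨h4, h5, h6⟩ := ht z hz'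
        have h7 : t z ≠ y := (Finset.mem_erase.1 h4).1
        have h8 : t z ≠ x := (Finset.mem_erase.1 (Finset.mem_erase.1 h4).2).1
        have h9 : t z ∈ F := (Finset.mem_erase.1 (Finset.mem_erase.1 h4).2).2
        simp [hzx, hzy, h7, h8, h9, h5, h6]

/-- Colourings of a set with two fixed point free involutions `s`, `t`: the colours of
`x` and `s x` differ by a prescribed label, the colours of `x` and `t x` are equal or the
preferred one of the two elements `x`, `t x` has colour `true`. -/
theorem exists_colouring_aux {β : Type*} [DecidableEq β] (n : ℕ) : ∀ U : Finset β,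
    U.card = n → ∀ (s t : β → β) (l : β → Bool) (P : β → Prop),
    (∀ x ∈ U, s x ∈ U ∧ s (s x) = x ∧ s x ≠ x ∧ l (s x) = l x) →
    (∀ x ∈ U, t x ∈ U ∧ t (t x) = x ∧ t x ≠ x) →
    (∀ x ∈ U, P x ∨ P (t x)) →
    ∃ D : β → Bool, (∀ x ∈ U, D (s x) = xor (D x) (l x)) ∧
      ∀ x ∈ U, D x = true → D (t x) = false → P x := by
  induction n using Nat.strong_induction_on with
  | _ n ih =>
    intro U hU s t l P hs ht hP
    by_cases hne : U = ∅
    · subst hne
      exact ⟨fun _ => true, by simp, by simp⟩
    obtain ⟨h, hh⟩ := Finset.nonempty_iff_ne_empty.2 hne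
    obtain ⟨hth, htth, hthne⟩ := ht h hh
    obtain ⟨hsh, hssh, hshne, hlsh⟩ := hs h hh
    obtain ⟨hsth, hssth, hsthne, hlsth⟩ := hs (t h) hth
    have hU' : ((U.erase h).erase (t h)).card < n := by
      have h1 : t h ∈ U.erase h := Finset.mem_erase.2 ⟨hthne, hth⟩
      rw [Finset.card_erase_of_mem h1, Finset.card_erase_of_mem hh]
      have h2 : 0 < U.card := Finset.card_pos.2 ⟨h, hh⟩
      omega
    have hmem : ∀ x, x ∈ (U.erase h).erase (t h) ↔ x ≠ t h ∧ x ≠ h ∧ x ∈ U := by
      intro x
      rw [Finset.mem_erase, Finset.mem_erase]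
    have ht' : ∀ x ∈ (U.erase h).erase (t h),
        t x ∈ (U.erase h).erase (t h) ∧ t (t x) = x ∧ t x ≠ x := by
      intro x hx
      obtain ⟨h1, h2, h3⟩ := (hmem x).1 hx
      obtain ⟨h4, h5, h6⟩ := ht x h3
      refine ⟨(hmem _).2 ⟨fun h7 => h2 ?_, fun h7 => h1 ?_, h4⟩, h5, h6⟩
      · rw [← h5, h7, htth]
      · rw [← h5, h7]
    have hP' : ∀ x ∈ (U.erase h).erase (t h), P x ∨ P (t x) := fun x hx =>
      hP x ((hmem x).1 hx).2.2
    by_cases hcase : s h = t h
    · -- the two elements are a component
      have hsth' : s (t h) = h := by rw [← hcase, hssh]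
      have hs' : ∀ x ∈ (U.erase h).erase (t h),
          s x ∈ (U.erase h).erase (t h) ∧ s (s x) = x ∧ s x ≠ x ∧ l (s x) = l x := by
        intro x hx
        obtain ⟨h1, h2, h3⟩ := (hmem x).1 hx
        obtain ⟨h4, h5, h6, h7⟩ := hs x h3
        refine ⟨(hmem _).2 ⟨fun h8 => h2 ?_, fun h8 => h1 ?_, h4⟩, h5, h6, h7⟩
        · rw [← h5, h8, hsth']
        · rw [← h5, h8, hcase]
      obtain ⟨D, hD1, hD2⟩ := ih _ hU' _ rfl s t l P hs' ht' hP'
      -- colour of `h`
      obtain ⟨c, hc1, hc2⟩ : ∃ c : Bool, (c = true → xor c (l h) = false → P h) ∧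
          (xor c (l h) = true → c = false → P (t h)) := by
        rcases hP h hh with h1 | h1
        · exact ⟨true, fun _ _ => h1, fun _ h2 => by simp at h2⟩
        · exact ⟨false, fun h2 => by simp at h2, fun _ _ => h1⟩
      refine ⟨fun x => if x = h then c else if x = t h then xor c (l h) else D x, ?_, ?_⟩
      · intro x hx
        by_cases hxh : x = h
        · subst hxh
          simp [hcase, hthne]
        · by_cases hxt : x = t h
          · subst hxt
            have hl : l (t h) = l h := by rw [← hcase, hlsh]
            simp [hsth', hthne, hl]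
          · have hx' := (hmem x).2 ⟨hxt, hxh, hx⟩
            obtain ⟨h1, h2, _⟩ := (hmem _).1 (hs' x hx').1
            simp only [hxh, hxt, h1, h2, if_false]
            exact hD1 x hx'
      · intro x hx
        by_cases hxh : x = h
        · subst hxh
          simp only [if_true, hthne, if_false]
          exact hc1
        · by_cases hxt : x = t h
          · subst hxt
            simp only [hthne, if_false, if_true, htth]
            exact hc2
          · have hx' := (hmem x).2 ⟨hxt, hxh, hx⟩
            obtain ⟨h1, h2, _⟩ := (hmem _).1 (ht' x hx').1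
            simp only [hxh, hxt, h1, h2, if_false]
            exact hD2 x hx'
    · -- contract the pair
      set a := s h with ha
      set b := s (t h) with hb
      have hab : a ≠ b := by
        intro h1
        apply hthne
        exact hssth.symm.trans ((congrArg s h1).symm.trans hssh)
      have haU : a ∈ (U.erase h).erase (t h) := (hmem a).2 ⟨hcase, hshne, hsh⟩
      have hbh : b ≠ h := by
        intro h1
        apply hcase
        exact (congrArg s h1).symm.trans hssth
      have hbU : b ∈ (U.erase h).erase (t h) := (hmem b).2 ⟨hsthne, hbh, hsth⟩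
      have hsa : s a = h := hssh
      have hsb : s b = t h := hssth
      let s' : β → β := fun x => if x = a then b else if x = b then a else s x
      let l' : β → Bool := fun x => if x = a ∨ x = b then xor (l h) (l (t h)) else l x
      have hs'o : ∀ x, x ≠ a → x ≠ b → s' x = s x := fun x h1 h2 => by simp [s', h1, h2]
      have hs'a : s' a = b := by simp [s']
      have hs'b : s' b = a := by simp [s', hab.symm]
      have hl'a : l' a = xor (l h) (l (t h)) := by simp [l']
      have hl'b : l' b = xor (l h) (l (t h)) := by simp [l']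
      have hl'o : ∀ x, x ≠ a → x ≠ b → l' x = l x := fun x h1 h2 => by simp [l', h1, h2]
      have hs' : ∀ x ∈ (U.erase h).erase (t h),
          s' x ∈ (U.erase h).erase (t h) ∧ s' (s' x) = x ∧ s' x ≠ x ∧ l' (s' x) = l' x := by
        intro x hx
        by_cases hxa : x = a
        · subst hxa
          rw [hs'a, hs'b, hl'a, hl'b]
          exact ⟨hbU, rfl, hab.symm, rfl⟩
        · by_cases hxb : x = b
          · rw [hxb, hs'b, hs'a, hl'a, hl'b]
            exact ⟨haU, rfl, hab, rfl⟩
          · obtain ⟨h1, h2, h3⟩ := (hmem x).1 hx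
            obtain ⟨h4, h5, h6, h7⟩ := hs x h3
            have h8 : s x ≠ a := fun h9 => h2 (by rw [← h5, h9, hsa])
            have h9 : s x ≠ b := fun h9 => h1 (by rw [← h5, h9, hsb])
            have h10 : s x ≠ h := fun h9 => hxa (by rw [← h5, h9])
            have h11 : s x ≠ t h := fun h9 => hxb (by rw [← h5, h9])
            rw [hs'o x hxa hxb, hs'o _ h8 h9, hl'o x hxa hxb, hl'o _ h8 h9]
            exact ⟨(hmem _).2 ⟨h11, h10, h4⟩, h5, h6, h7⟩
      obtain ⟨D, hD1, hD2⟩ := ih _ hU' _ rfl s' t l' P hs' ht' hP'
      have hDb : D b = xor (D a) (xor (l h) (l (t h))) := by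
        have := hD1 a haU
        rwa [hs'a, hl'a] at this
      have hah : a ≠ h := hshne
      have hat : a ≠ t h := hcase
      have hbt : b ≠ t h := hsthne
      have hDh : xor (D a) (l h) = xor (D b) (l (t h)) := by
        rw [hDb]
        cases D a <;> cases l h <;> cases l (t h) <;> rfl
      refine ⟨fun x => if x = h then xor (D a) (l h) else if x = t h then xor (D b) (l (t h))
        else D x, ?_, ?_⟩
      · intro x hx
        by_cases hxh : x = h
        · subst hxh
          simp only [if_true, ← ha, hah, hat, if_false]
          cases D a <;> cases l x <;> rfl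
        · by_cases hxt : x = t h
          · subst hxt
            simp only [if_true, ← hb, hbh, hbt, hthne, if_false]
            cases D b <;> cases l (t h) <;> rfl
          · have hx' := (hmem x).2 ⟨hxt, hxh, hx⟩
            by_cases hxa : x = a
            · rw [hxa]
              simp only [hsa, if_true, hah, hat, if_false]
              rw [hlsh]
            · by_cases hxb : x = b
              · rw [hxb]
                simp only [hsb, if_true, hthne, hbh, hbt, if_false]
                rw [hlsth]
              · obtain ⟨h4, h5, h6, h7⟩ := hs x hx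
                have h10 : s x ≠ h := fun h9 => hxa (by rw [← h5, h9])
                have h11 : s x ≠ t h := fun h9 => hxb (by rw [← h5, h9])
                simp only [hxh, hxt, h10, h11, if_false]
                have := hD1 x hx'
                rwa [hs'o x hxa hxb, hl'o x hxa hxb] at this
      · intro x hx
        by_cases hxh : x = h
        · subst hxh
          simp only [if_true, hthne, if_false]
          intro h1 h2
          rw [← hDh, h1] at h2
          simp at h2
        · by_cases hxt : x = t h
          · subst hxt
            simp only [hthne, if_false, if_true, htth]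
            intro h1 h2
            rw [hDh, h1] at h2
            simp at h2
          · have hx' := (hmem x).2 ⟨hxt, hxh, hx⟩
            obtain ⟨h1, h2, _⟩ := (hmem _).1 (ht' x hx').1
            simp only [hxh, hxt, h1, h2, if_false]
            exact hD2 x hx'

/-- Colourings of a set with two fixed point free involutions. -/
theorem exists_colouring {β : Type*} [DecidableEq β] (U : Finset β) (s t : β → β) (P : β → Prop)
    (hs : ∀ x ∈ U, s x ∈ U ∧ s (s x) = x ∧ s x ≠ x)
    (ht : ∀ x ∈ U, t x ∈ U ∧ t (t x) = x ∧ t x ≠ x)
    (hP : ∀ x ∈ U, P x ∨ P (t x)) :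
    ∃ D : β → Bool, (∀ x ∈ U, D (s x) = !(D x)) ∧
      ∀ x ∈ U, D x = true → D (t x) = false → P x := by
  obtain ⟨D, h1, h2⟩ := exists_colouring_aux U.card U rfl s t (fun _ => true) P
    (fun x hx => ⟨(hs x hx).1, (hs x hx).2.1, (hs x hx).2.2, rfl⟩) ht hP
  refine ⟨D, fun x hx => ?_, h2⟩
  rw [h1 x hx]
  cases D x <;> rfl

end Pool.Agent.Lib.P901b45c
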