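import Pool.Agent.Lib.P901b45.Part

/-
A colouring of the ground set with independent colour classes (m-fold matroid union).
-/

namespace Pool.Agent.Lib.P901b45c

open Pool.Agent.Lib.P901b45 Part

section

variable {α ι : Type*} [Fintype α] [DecidableEq α] [Fintype ι] [DecidableEq ι]

/-- the slice of a set of pairs -/
def slice (X : Finset (ι × α)) (i : ι) : Finset α := Finset.univ.filter fun e => (i, e) ∈ X

omit [Fintype ι] in
theorem mem_slice {X : Finset (ι × α)} {i : ι} {e : α} : e ∈ slice X i ↔ (i, e) ∈ X := by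
  simp [slice]

theorem slice_card (X : Finset (ι × α)) (i : ι) :
    (slice X i).card = (X.filter fun q => q.1 = i).card := by
  rw [← Finset.card_map (⟨fun e => (i, e), fun a b hab => (Prod.mk.inj hab).2⟩ : α ↪ ι × α)]
  congr 1
  ext ⟨j, e⟩
  simp only [Finset.mem_map, Function.Embedding.coeFn_mk, Finset.mem_filter, mem_slice]
  constructor
  · rintro ⟨a, ha, hae⟩
    obtain ⟨h1, h2⟩ := Prod.mk.inj hae
    subst h1 h2
    exact ⟨ha, rfl⟩
  · rintro ⟨h1, h2⟩
    subst h2
    exact ⟨e, h1, rfl⟩

theorem sum_slice_card (X : Finset (ι × α)) : ∑ i, (slice X i).card = X.card := by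
  rw [Part.card_eq (Prod.fst : ι × α → ι) X]
  exact Finset.sum_congr rfl fun i _ => slice_card X i

theorem slice_union (X Y : Finset (ι × α)) (i : ι) : slice (X ∪ Y) i = slice X i ∪ slice Y i := by
  ext e
  simp only [mem_slice, Finset.mem_union]

theorem slice_inter (X Y : Finset (ι × α)) (i : ι) : slice (X ∩ Y) i = slice X i ∩ slice Y i := by
  ext e
  simp only [mem_slice, Finset.mem_inter]

omit [Fintype α] [DecidableEq ι] in
theorem fibre_card_le (X : Finset (ι × α)) (e : α) :
    (X.filter fun q => q.2 = e).card ≤ Fintype.card ι := by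
  rw [← Finset.card_univ, ← Finset.card_map
    (⟨fun i => (i, e), fun a b hab => (Prod.mk.inj hab).1⟩ : ι ↪ ι × α)]
  refine Finset.card_le_card fun q hq => ?_
  obtain ⟨_, h2⟩ := Finset.mem_filter.1 hq
  exact Finset.mem_map.2 ⟨q.1, Finset.mem_univ _, by rw [← h2]; rfl⟩

omit [Fintype α] in
theorem fibre_card_le' (X : Finset (ι × α)) (e : α) {i₀ : ι} (h : (i₀, e) ∉ X) :
    (X.filter fun q => q.2 = e).card ≤ Fintype.card ι - 1 := by
  have h1 : (Finset.univ.erase i₀ : Finset ι).card = Fintype.card ι - 1 := by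
    rw [Finset.card_erase_of_mem (Finset.mem_univ _), Finset.card_univ]
  rw [← h1, ← Finset.card_map
    (⟨fun i => (i, e), fun a b hab => (Prod.mk.inj hab).1⟩ : ι ↪ ι × α)]
  refine Finset.card_le_card fun q hq => ?_
  obtain ⟨h3, h2⟩ := Finset.mem_filter.1 hq
  refine Finset.mem_map.2 ⟨q.1, Finset.mem_erase.2 ⟨fun h4 => h ?_, Finset.mem_univ _⟩,
    by rw [← h2]; rfl⟩
  rw [← h4, ← h2]
  exact h3

theorem exists_initial (M : ι → Matroid α)
    (h : ∀ S : Finset α, S.card ≤ ∑ i, rk (M i) S) :
    ∃ c : α → ι, ∀ i, (M i).Indep ((Finset.univ.filter fun e => c e = i : Finset α) : Set α) := by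
  classical
  have hc₁ : ∀ X : Finset (ι × α), ∑ i, rk (M i) (slice X i) ≤ X.card := by
    intro X
    rw [← sum_slice_card X]
    exact Finset.sum_le_sum fun i _ => rk_le_card _ _
  have hs₁ : ∀ X Y : Finset (ι × α), ∑ i, rk (M i) (slice (X ∪ Y) i) +
      ∑ i, rk (M i) (slice (X ∩ Y) i) ≤ ∑ i, rk (M i) (slice X i) + ∑ i, rk (M i) (slice Y i) := by
    intro X Y
    rw [← Finset.sum_add_distrib, ← Finset.sum_add_distrib]
    refine Finset.sum_le_sum fun i _ => ?_
    rw [slice_union, slice_inter]
    exact rk_submod _ _ _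
  have hcond : ∀ X ⊆ (Finset.univ : Finset (ι × α)), X.card + (∅ : Finset (ι × α)).card +
      (∅ : Finset (ι × α)).card ≤ ∑ i, rk (M i) (slice (∅ ∪ X) i) +
        partRk (Prod.snd : ι × α → α) (fun _ => Fintype.card ι - 1) (∅ ∪ X) := by
    intro X _
    rw [Finset.empty_union, Finset.card_empty, add_zero, add_zero]
    have h1 : X.card ≤ partRk (Prod.snd : ι × α → α) (fun _ => Fintype.card ι - 1) X +
        (Finset.univ.filter fun e : α => ∀ i, (i, e) ∈ X).card := by
      rw [Part.card_eq (Prod.snd : ι × α → α) X, Finset.card_filter]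
      unfold partRk
      rw [← Finset.sum_add_distrib]
      refine Finset.sum_le_sum fun e _ => ?_
      beta_reduce
      by_cases he : ∀ i, (i, e) ∈ X
      · rw [if_pos he]
        have := fibre_card_le X e
        omega
      · rw [if_neg he]
        push Not at he
        obtain ⟨i₀, hi₀⟩ := he
        have := fibre_card_le' X e hi₀
        omega
    have h2 := h (Finset.univ.filter fun e : α => ∀ i, (i, e) ∈ X)
    have h3 : ∑ i, rk (M i) (Finset.univ.filter fun e : α => ∀ i, (i, e) ∈ X) ≤
        ∑ i, rk (M i) (slice X i) := by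
      refine Finset.sum_le_sum fun i _ => rk_mono _ fun e he => ?_
      exact mem_slice.2 ((Finset.mem_filter.1 he).2 i)
    omega
  obtain ⟨R₁, R₂, hd, hu, h1, h2⟩ := cov_abstract (fun X => ∑ i, rk (M i) (slice X i))
    (partRk (Prod.snd : ι × α → α) (fun _ => Fintype.card ι - 1)) hc₁ partRk_le_card
    hs₁ partRk_submod Finset.univ ∅ ∅ (by simp) (by simp) hcond
  rw [Finset.empty_union] at h1 h2
  have hok := ok_of_partRk h2
  have hex : ∀ e : α, ∃ i : ι, (i, e) ∈ R₁ := by
    intro e
    by_contra hcon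
    push Not at hcon
    have hpos : 0 < Fintype.card ι := by
      rw [Fintype.card_pos_iff]
      by_contra hemp
      rw [not_nonempty_iff] at hemp
      have h3 := h {e}
      rw [Finset.card_singleton, Finset.univ_eq_empty, Finset.sum_empty] at h3
      omega
    have h3 : (Finset.univ : Finset ι).map
        (⟨fun i => (i, e), fun a b hab => (Prod.mk.inj hab).1⟩ : ι ↪ ι × α) ⊆
        R₂.filter fun q => q.2 = e := by
      intro q hq
      obtain ⟨i, _, rfl⟩ := Finset.mem_map.1 hq
      refine Finset.mem_filter.2 ⟨?_, rfl⟩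
      have h4 : (i, e) ∈ R₁ ∪ R₂ := by rw [hu]; exact Finset.mem_univ _
      rcases Finset.mem_union.1 h4 with h5 | h5
      · exact absurd h5 (hcon i)
      · exact h5
    have h4 := Finset.card_le_card h3
    rw [Finset.card_map, Finset.card_univ] at h4
    have h5 : (R₂.filter fun q => q.2 = e).card ≤ Fintype.card ι - 1 := hok e
    omega
  choose c hc using hex
  refine ⟨c, fun i => ?_⟩
  have h3 : (M i).Indep ((slice R₁ i : Finset α) : Set α) := by
    rw [indep_iff_rk]
    rw [← sum_slice_card R₁] at h1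
    exact (Finset.sum_eq_sum_iff_of_le (s := Finset.univ)
      (f := fun i => rk (M i) (slice R₁ i)) (g := fun i => (slice R₁ i).card)
      fun i _ => rk_le_card _ _).1 h1 i (Finset.mem_univ i)
  refine h3.subset ?_
  intro e he
  rw [Finset.mem_coe] at he ⊢
  have h4 := (Finset.mem_filter.1 he).2
  rw [mem_slice, ← h4]
  exact hc e

end

end Pool.Agent.Lib.P901b45c
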