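import Pool.Agent.Lib.P901b45c.Comb

/-
States of a family of submodular functions: families of integral vectors `w i` with
`w i (A) ≤ 2 r i A` and `∑ i, w i e = 2`. A state with the smallest number of elements `e`
with some `w i e = 2` has no directed cycles of exchanges, hence a linear order of the
pairs `(i, e)` with good properties.
-/

namespace Pool.Agent.Lib.P901b45c

variable {α ι : Type*} [Fintype α] [DecidableEq α] [Fintype ι] [DecidableEq ι]

/-- States of the family `r`. -/
structure St (r : ι → Finset α → ℕ) (w : ι → α → ℕ) : Prop where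
  le : ∀ i A, ∑ e ∈ A, w i e ≤ 2 * r i A
  sum : ∀ e, ∑ i, w i e = 2

omit [Fintype α] [DecidableEq α] [Fintype ι] [DecidableEq ι] in
/-- tight sets -/
def Tt (r : ι → Finset α → ℕ) (w : ι → α → ℕ) (i : ι) (A : Finset α) : Prop :=
  ∑ e ∈ A, w i e = 2 * r i A

/-- every tight set which contains `a` contains `b` -/
def Dn (r : ι → Finset α → ℕ) (w : ι → α → ℕ) (i : ι) (a b : α) : Prop :=
  ∀ A, Tt r w i A → a ∈ A → b ∈ A

/-- the arrows between the elements with an entry two -/
def Ar (r : ι → Finset α → ℕ) (w : ι → α → ℕ) (e e' : α) : Prop :=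
  ∃ i j, i ≠ j ∧ w i e = 2 ∧ w j e' = 2 ∧ Dn r w j e e'

/-- the elements with an entry two -/
def singles (w : ι → α → ℕ) : Finset α := Finset.univ.filter fun e => ∃ i, w i e = 2

variable {r : ι → Finset α → ℕ} {w : ι → α → ℕ}

omit [DecidableEq α] in
theorem mem_singles (e : α) : e ∈ singles w ↔ ∃ i, w i e = 2 := by
  unfold singles
  rw [Finset.mem_filter]
  exact ⟨fun h => h.2, fun h => ⟨Finset.mem_univ _, h⟩⟩

omit [Fintype α] [DecidableEq α] in
theorem St.add_le (hw : St r w) {i j : ι} (hij : i ≠ j) (e : α) : w i e + w j e ≤ 2 := by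
  rw [← hw.sum e, ← Finset.sum_pair (f := fun i => w i e) hij]
  exact Finset.sum_le_sum_of_subset (Finset.subset_univ _)

omit [Fintype α] [DecidableEq α] in
theorem St.eq_of_two (hw : St r w) {i j : ι} {e : α} (hi : w i e = 2) (hj : w j e = 2) : i = j := by
  by_contra hne
  have := hw.add_le hne e
  omega

omit [Fintype α] [DecidableEq α] in
theorem St.eq_zero (hw : St r w) {i j : ι} {e : α} (hi : w i e = 2) (hij : i ≠ j) : w j e = 0 := by
  have := hw.add_le hij e
  omega

omit [Fintype α] [DecidableEq ι] in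
theorem Tt.inter (hw : St r w) (hsub : ∀ i A B, r i (A ∪ B) + r i (A ∩ B) ≤ r i A + r i B)
    {i : ι} {A B : Finset α} (hA : Tt r w i A) (hB : Tt r w i B) : Tt r w i (A ∩ B) := by
  unfold Tt at *
  have h1 := Finset.sum_union_inter (s₁ := A) (s₂ := B) (f := fun e => w i e)
  have h2 := hw.le i (A ∪ B)
  have h3 := hw.le i (A ∩ B)
  have h4 := hsub i A B
  omega

omit [DecidableEq ι] in
/-- the least tight set of an element -/
theorem exists_least (hw : St r w) (hsub : ∀ i A B, r i (A ∪ B) + r i (A ∩ B) ≤ r i A + r i B)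
    (huniv : ∀ i, Tt r w i Finset.univ) (i : ι) (a : α) :
    ∃ L : Finset α, Tt r w i L ∧ a ∈ L ∧ ∀ A, Tt r w i A → a ∈ A → L ⊆ A := by
  classical
  obtain ⟨L, hL, hmin⟩ := Finset.exists_min_image
    ((Finset.univ : Finset (Finset α)).filter fun A => Tt r w i A ∧ a ∈ A) Finset.card
    ⟨Finset.univ, Finset.mem_filter.2 ⟨Finset.mem_univ _, huniv i, Finset.mem_univ _⟩⟩
  obtain ⟨h1, h2⟩ := (Finset.mem_filter.1 hL).2
  refine ⟨L, h1, h2, fun A hA ha => ?_⟩
  have h3 := hmin (L ∩ A) (Finset.mem_filter.2 ⟨Finset.mem_univ _, Tt.inter hw hsub h1 hA,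
    Finset.mem_inter.2 ⟨h2, ha⟩⟩)
  have h4 : L ∩ A = L := Finset.eq_of_subset_of_card_le Finset.inter_subset_left h3
  rw [← h4]
  exact Finset.inter_subset_right

omit [Fintype α] [DecidableEq ι] in
/-- the slack of a set which is crossed by exchanges -/
theorem slack (hw : St r w) (hsub : ∀ i A B, r i (A ∪ B) + r i (A ∩ B) ≤ r i A + r i B)
    (i : ι) (L : α → Finset α) (π : α → α) (K : Finset α) :
    (∀ a ∈ K, Tt r w i (L a) ∧ a ∈ L a ∧ Dn r w i a (π a)) →
    (∀ a ∈ K, ∀ b ∈ K, b ≠ a → π b ∉ L a) →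
    ∀ A : Finset α, (∀ a ∈ K, a ∈ A ∧ π a ∉ A) → ∑ e ∈ A, w i e + K.card ≤ 2 * r i A := by
  induction K using Finset.induction_on with
  | empty =>
    intro _ _ A _
    simpa using hw.le i A
  | insert a K ha ih =>
    intro h1 h2 A hA
    have hK : K ⊆ insert a K := Finset.subset_insert a K
    have haK := Finset.mem_insert_self a K
    obtain ⟨hL, haL, hd⟩ := h1 a haK
    obtain ⟨haA, haA'⟩ := hA a haK
    have h3 := ih (fun b hb => h1 b (hK hb)) (fun b hb c hc => h2 b (hK hb) c (hK hc)) (A ∪ L a)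
      (fun b hb => by
        obtain ⟨h4, h5⟩ := hA b (hK hb)
        refine ⟨Finset.mem_union_left _ h4, fun h6 => ?_⟩
        rcases Finset.mem_union.1 h6 with h7 | h7
        · exact h5 h7
        · exact h2 a haK b (hK hb) (fun h8 => ha (h8 ▸ hb)) h7)
    have h4 : ∑ e ∈ A ∩ L a, w i e < 2 * r i (A ∩ L a) := by
      refine lt_of_le_of_ne (hw.le i _) fun h5 => ?_
      have h6 := hd _ h5 (Finset.mem_inter.2 ⟨haA, haL⟩)
      exact haA' (Finset.mem_inter.1 h6).1
    have h5 := Finset.sum_union_inter (s₁ := A) (s₂ := L a) (f := fun e => w i e)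
    have h6 := hsub i A (L a)
    unfold Tt at hL
    rw [Finset.card_insert_of_notMem ha]
    omega

/-- There is no finite nonempty set of elements which is closed under successors. -/
theorem no_cycle (hw : St r w) (hsub : ∀ i A B, r i (A ∪ B) + r i (A ∩ B) ≤ r i A + r i B)
    (huniv : ∀ i, Tt r w i Finset.univ)
    (hopt : ∀ w', St r w' → (singles w).card ≤ (singles w').card)
    (J : Finset α) (hJ : J.Nonempty) (hR : ∀ i ∈ J, ∃ j ∈ J, Ar r w i j) : False := by
  classical
  obtain ⟨J, hJ', hmin⟩ := Finset.exists_min_image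
    ((Finset.univ : Finset (Finset α)).filter
      fun J => J.Nonempty ∧ ∀ i ∈ J, ∃ j ∈ J, Ar r w i j) Finset.card
    ⟨J, Finset.mem_filter.2 ⟨Finset.mem_univ _, hJ, hR⟩⟩
  obtain ⟨hJ, hR⟩ := (Finset.mem_filter.1 hJ').2
  have hbij : ∀ π : α → α, (∀ i ∈ J, π i ∈ J ∧ Ar r w i (π i)) →
      J.image π = J ∧ Set.InjOn π (J : Set α) := by
    intro π hπ
    have h1 : J.image π ⊆ J := by
      intro x hx
      obtain ⟨i, hi, rfl⟩ := Finset.mem_image.1 hx
      exact (hπ i hi).1
    have h2 : J.card ≤ (J.image π).card := hmin _ (Finset.mem_filter.2 ⟨Finset.mem_univ _,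
      hJ.image π, fun i hi => ⟨π i, Finset.mem_image_of_mem π (h1 hi), (hπ i (h1 hi)).2⟩⟩)
    have h3 : J.image π = J := Finset.eq_of_subset_of_card_le h1 h2
    refine ⟨h3, ?_⟩
    rw [← Finset.card_image_iff, h3]
  choose! π hπJ hπR using hR
  obtain ⟨hπim, hπinj⟩ := hbij π fun i hi => ⟨hπJ i hi, hπR i hi⟩
  have huniq : ∀ i ∈ J, ∀ j ∈ J, Ar r w i j → j = π i := by
    intro i hi j hj hji
    obtain ⟨_, hinj⟩ := hbij (Function.update π i j) (by
      intro x hx
      by_cases hxi : x = i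
      · rw [hxi, Function.update_self]
        exact ⟨hj, hji⟩
      · rw [Function.update_of_ne hxi]
        exact ⟨hπJ x hx, hπR x hx⟩)
    have h1 : j ∈ J.image π := by rw [hπim]; exact hj
    obtain ⟨i', hi', hi''⟩ := Finset.mem_image.1 h1
    by_cases h2 : i' = i
    · rw [← hi'', h2]
    · exfalso
      have h3 : Function.update π i j i' = Function.update π i j i := by
        rw [Function.update_of_ne h2, Function.update_self, hi'']
      exact h2 (hinj (Finset.mem_coe.2 hi') (Finset.mem_coe.2 hi) h3)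
  have hne : Nonempty ι := by
    obtain ⟨i, hi⟩ := hJ
    obtain ⟨a, _⟩ := hπR i hi
    exact ⟨a⟩
  have hex : ∀ e ∈ J, ∃ i j, i ≠ j ∧ w i e = 2 ∧ w j (π e) = 2 ∧ Dn r w j e (π e) := hπR
  choose! ie je hne' hie hje hdn using hex
  have hL : ∀ i a, ∃ L : Finset α, Tt r w i L ∧ a ∈ L ∧ ∀ A, Tt r w i A → a ∈ A → L ⊆ A :=
    exists_least hw hsub huniv
  choose L hL1 hL2 hL3 using hL
  -- the new state
  let w' : ι → α → ℕ := fun i e =>
    if e ∈ J then (if i = ie e then 1 else 0) + (if i = je e then 1 else 0) else w i e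
  have hw'J : ∀ i, ∀ e ∈ J, w' i e = (if i = ie e then 1 else 0) + (if i = je e then 1 else 0) :=
    fun i e he => by simp only [w', if_pos he]
  have hw'o : ∀ i, ∀ e, e ∉ J → w' i e = w i e := fun i e he => by simp only [w', if_neg he]
  have hpt : ∀ i e, w' i e + (if e ∈ J ∧ ie e = i then 1 else 0) =
      w i e + (if e ∈ J ∧ je e = i then 1 else 0) := by
    intro i e
    by_cases he : e ∈ J
    · rw [hw'J i e he]
      simp only [he, true_and]
      by_cases h1 : ie e = i
      · have h2 : je e ≠ i := fun h3 => hne' e he (h1.trans h3.symm)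
        have h3 : w i e = 2 := by rw [← h1]; exact hie e he
        simp [h1, h2, Ne.symm h2, h3]
      · have h3 : w i e = 0 := hw.eq_zero (hie e he) h1
        by_cases h2 : je e = i
        · simp [h1, Ne.symm h1, h2, h3]
        · simp [h1, Ne.symm h1, h2, Ne.symm h2, h3]
    · rw [hw'o i e he]
      simp [he]
  have hSt : St r w' := by
    constructor
    · intro i A
      have h1 : ∑ e ∈ A, w' i e + (A.filter fun e => e ∈ J ∧ ie e = i).card =
          ∑ e ∈ A, w i e + (A.filter fun e => e ∈ J ∧ je e = i).card := by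
        rw [Finset.card_filter, Finset.card_filter, ← Finset.sum_add_distrib,
          ← Finset.sum_add_distrib]
        exact Finset.sum_congr rfl fun e _ => hpt i e
      have h2 := slack hw hsub i (L i) π (A.filter fun e => (e ∈ J ∧ je e = i) ∧ π e ∉ A)
        (fun a ha => by
          obtain ⟨_, ⟨h3, h4⟩, _⟩ := Finset.mem_filter.1 ha
          refine ⟨hL1 i a, hL2 i a, ?_⟩
          rw [← h4]
          exact hdn a h3)
        (fun a ha b hb hba hmem => by
          obtain ⟨_, ⟨h3, h4⟩, _⟩ := Finset.mem_filter.1 ha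
          obtain ⟨_, ⟨h5, h6⟩, _⟩ := Finset.mem_filter.1 hb
          have h7 : Ar r w a (π b) := by
            refine ⟨ie a, i, ?_, hie a h3, ?_, ?_⟩
            · rw [← h4]; exact hne' a h3
            · rw [← h6]; exact hje b h5
            · intro T hT haT
              exact hL3 i a T hT haT hmem
          have h8 := huniq a h3 (π b) (hπJ b h5) h7
          exact hba (hπinj (Finset.mem_coe.2 h5) (Finset.mem_coe.2 h3) h8))
        A (fun a ha => by
          obtain ⟨h3, _, h4⟩ := Finset.mem_filter.1 ha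
          exact ⟨h3, h4⟩)
      have h3 : (A.filter fun e => e ∈ J ∧ je e = i).card ≤
          (A.filter fun e => (e ∈ J ∧ je e = i) ∧ π e ∉ A).card +
          (A.filter fun e => (e ∈ J ∧ je e = i) ∧ π e ∈ A).card := by
        have h3' := Finset.card_filter_add_card_filter_not
          (s := A.filter fun e => e ∈ J ∧ je e = i) (fun e => π e ∈ A)
        rw [Finset.filter_filter, Finset.filter_filter] at h3'
        omega
      have h4 : (A.filter fun e => (e ∈ J ∧ je e = i) ∧ π e ∈ A).card ≤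
          (A.filter fun e => e ∈ J ∧ ie e = i).card := by
        refine Finset.card_le_card_of_injOn π ?_ ?_
        · intro e he
          obtain ⟨h5, ⟨h6, h7⟩, h8⟩ := Finset.mem_filter.1 (Finset.mem_coe.1 he)
          refine Finset.mem_coe.2 (Finset.mem_filter.2 ⟨h8, hπJ e h6, ?_⟩)
          have h9 := hje e h6
          rw [h7] at h9
          exact hw.eq_of_two (hie _ (hπJ e h6)) h9
        · intro e he e' he' hee
          obtain ⟨h5, ⟨h6, h7⟩, h8⟩ := Finset.mem_filter.1 (Finset.mem_coe.1 he)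
          obtain ⟨h5', ⟨h6', h7'⟩, h8'⟩ := Finset.mem_filter.1 (Finset.mem_coe.1 he')
          exact hπinj (Finset.mem_coe.2 h6) (Finset.mem_coe.2 h6') hee
      omega
    · intro e
      by_cases he : e ∈ J
      · have h1 : ∑ i, w' i e = ∑ i, ((if i = ie e then 1 else 0) + (if i = je e then 1 else 0)) :=
          Finset.sum_congr rfl fun i _ => hw'J i e he
        rw [h1, Finset.sum_add_distrib]
        simp
      · have h1 : ∑ i, w' i e = ∑ i, w i e := Finset.sum_congr rfl fun i _ => hw'o i e he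
        rw [h1, hw.sum]
  have h1 := hopt w' hSt
  have h2 : singles w' ⊂ singles w := by
    refine ⟨?_, ?_⟩
    · intro e he
      obtain ⟨i, hi⟩ := (mem_singles e).1 he
      by_cases heJ : e ∈ J
      · exact (mem_singles e).2 ⟨ie e, hie e heJ⟩
      · rw [hw'o i e heJ] at hi
        exact (mem_singles e).2 ⟨i, hi⟩
    · intro h3
      obtain ⟨e, he⟩ := hJ
      have h4 := h3 ((mem_singles e).2 ⟨ie e, hie e he⟩)
      obtain ⟨i, hi⟩ := (mem_singles e).1 h4
      rw [hw'J i e he] at hi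
      have h5 := hne' e he
      by_cases h6 : i = ie e
      · have h7 : i ≠ je e := fun h8 => h5 (h6.symm.trans h8)
        simp [← h6, h7] at hi
      · by_cases h7 : i = je e
        · simp [h6, h7] at hi
          rw [← h7] at hi
          simp [h6] at hi
        · simp [h6, h7] at hi
  have h3 := Finset.card_lt_card h2
  omega

/-- the transitive closure of the arrows is irreflexive -/
theorem irrefl (hw : St r w) (hsub : ∀ i A B, r i (A ∪ B) + r i (A ∩ B) ≤ r i A + r i B)
    (huniv : ∀ i, Tt r w i Finset.univ)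
    (hopt : ∀ w', St r w' → (singles w).card ≤ (singles w').card) (e : α) :
    ¬ Relation.TransGen (Ar r w) e e := by
  classical
  intro hi
  refine no_cycle hw hsub huniv hopt (Finset.univ.filter fun j => Relation.TransGen (Ar r w) e j ∧
    Relation.TransGen (Ar r w) j e) ⟨e, Finset.mem_filter.2 ⟨Finset.mem_univ _, hi, hi⟩⟩ ?_
  intro j hj
  obtain ⟨h1, h2⟩ := (Finset.mem_filter.1 hj).2
  rcases Relation.TransGen.head'_iff.1 h2 with ⟨m, h3, h4⟩
  refine ⟨m, Finset.mem_filter.2 ⟨Finset.mem_univ _, Relation.TransGen.tail h1 h3, ?_⟩, h3⟩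
  rcases Relation.reflTransGen_iff_eq_or_transGen.1 h4 with h5 | h5
  · rw [← h5]
    exact hi
  · exact h5

/-- steps between the pairs -/
def Step (r : ι → Finset α → ℕ) (w : ι → α → ℕ) (h h' : ι × α) : Prop :=
  (h.1 = h'.1 ∧ Dn r w h.1 h.2 h'.2) ∨ (h.2 = h'.2 ∧ w h.1 h.2 = 2 ∧ h.1 ≠ h'.1)

omit [Fintype α] [DecidableEq α] [DecidableEq ι] [Fintype ι] in
theorem reach_inv {i j : ι} {e : α} (hij : i ≠ j) (hi : w i e = 2) {h : ι × α}
    (hr : Relation.ReflTransGen (Step r w) (j, e) h) :
    ∃ i' e', (e' = e ∨ Relation.TransGen (Ar r w) e e') ∧ w i' e' = 2 ∧ i' ≠ h.1 ∧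
      Dn r w h.1 e' h.2 := by
  induction hr with
  | refl => exact ⟨i, e, Or.inl rfl, hi, hij, fun A _ h => h⟩
  | @tail b c _ hs ih =>
    obtain ⟨i', e', h1, h2, h3, h4⟩ := ih
    rcases hs with ⟨h5, h6⟩ | ⟨h5, h6, h7⟩
    · refine ⟨i', e', h1, h2, ?_, ?_⟩
      · rw [← h5]; exact h3
      · rw [← h5]
        intro A hA he
        exact h6 A hA (h4 A hA he)
    · refine ⟨b.1, b.2, Or.inr ?_, h6, h7, ?_⟩
      · have h8 : Ar r w e' b.2 := ⟨i', b.1, h3, h2, h6, h4⟩
        rcases h1 with h1 | h1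
        · rw [h1] at h8
          exact Relation.TransGen.single h8
        · exact Relation.TransGen.tail h1 h8
      · rw [← h5]
        exact fun A _ h => h

omit [Fintype α] [DecidableEq α] [DecidableEq ι] [Fintype ι] in
theorem reach_cases {h h' : ι × α} (hr : Relation.ReflTransGen (Step r w) h h') :
    h.1 = h'.1 ∨ ∃ i j g, w i g = 2 ∧ i ≠ j ∧ Relation.ReflTransGen (Step r w) h (i, g) ∧
      Relation.ReflTransGen (Step r w) (j, g) h' := by
  induction hr with
  | refl => exact Or.inl rfl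
  | @tail b c hb hs ih =>
    rcases hs with ⟨h5, h6⟩ | ⟨h5, h6, h7⟩
    · rcases ih with h1 | ⟨i, j, g, h1, h2, h3, h4⟩
      · exact Or.inl (h1.trans h5)
      · exact Or.inr ⟨i, j, g, h1, h2, h3, Relation.ReflTransGen.tail h4 (Or.inl ⟨h5, h6⟩)⟩
    · refine Or.inr ⟨b.1, c.1, b.2, h6, h7, hb, ?_⟩
      rw [h5]

/-- The order of the pairs of a good state. -/
theorem exists_state (hsub : ∀ i A B, r i (A ∪ B) + r i (A ∩ B) ≤ r i A + r i B)
    (hsat : ∑ i, r i Finset.univ = Fintype.card α) (h0 : ∃ w, St r w) :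
    ∃ (w : ι → α → ℕ) (ρ : ι → α → ℕ), St r w ∧ (∀ i, Tt r w i Finset.univ) ∧
      (∀ i a b, Dn r w i a b → ρ i a ≤ ρ i b) ∧
      (∀ i j e, w i e = 2 → i ≠ j → ρ i e < ρ j e) ∧
      (∀ i j e, w i e = 1 → w j e = 1 → i ≠ j → ρ i e ≠ ρ j e) := by
  classical
  obtain ⟨w, hw, hopt⟩ : ∃ w, St r w ∧ ∀ w', St r w' → (singles w).card ≤ (singles w').card := by
    obtain ⟨w, hw⟩ := h0
    have h1 : ∃ n, ∃ w, St r w ∧ (singles w).card = n := ⟨_, w, hw, rfl⟩
    obtain ⟨w, hw, h2⟩ := Nat.find_spec h1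
    refine ⟨w, hw, fun w' hw' => ?_⟩
    rw [h2]
    exact Nat.find_min' h1 ⟨w', hw', rfl⟩
  have huniv : ∀ i, Tt r w i Finset.univ := by
    have h1 : ∑ i, ∑ e, w i e = ∑ i, 2 * r i Finset.univ := by
      rw [Finset.sum_comm, ← Finset.mul_sum, hsat]
      rw [Finset.sum_congr rfl fun e _ => hw.sum e]
      simp [mul_comm]
    have h2 := (Finset.sum_eq_sum_iff_of_le (s := Finset.univ) (f := fun i => ∑ e, w i e)
      (g := fun i => 2 * r i Finset.univ) fun i _ => hw.le i Finset.univ).1 h1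
    intro i
    exact h2 i (Finset.mem_univ i)
  have hirr := irrefl hw hsub huniv hopt
  obtain ⟨ρ, h1, h2⟩ := exists_rank (Relation.ReflTransGen (Step r w)) (fun _ => .refl)
    (fun _ _ _ => Relation.ReflTransGen.trans)
  -- no way back for the elements with an entry two
  have hback : ∀ i j e, w i e = 2 → i ≠ j →
      ¬ Relation.ReflTransGen (Step r w) (j, e) (i, e) := by
    intro i j e hi hij hr
    obtain ⟨i', e', h3, h4, h5, h6⟩ := reach_inv hij hi hr
    have h7 : Ar r w e' e := ⟨i', i, h5, h4, hi, h6⟩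
    rcases h3 with h3 | h3
    · rw [h3] at h7
      exact hirr e (Relation.TransGen.single h7)
    · exact hirr e (Relation.TransGen.tail h3 h7)
  refine ⟨w, fun i e => ρ (i, e), hw, huniv, ?_, ?_, ?_⟩
  · intro i a b hd
    exact h1 _ _ (Relation.ReflTransGen.single (Or.inl ⟨rfl, hd⟩))
  · intro i j e hi hij
    refine lt_of_le_of_ne (h1 _ _ (Relation.ReflTransGen.single (Or.inr ⟨rfl, hi, hij⟩))) ?_
    intro h3
    exact hback i j e hi hij (h2 _ _ h3).2
  · intro i j e hi hj hij h3
    obtain ⟨h4, h5⟩ := h2 _ _ h3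
    rcases reach_cases h4 with h6 | ⟨i', j', g, h7, h8, h9, h10⟩
    · exact hij h6
    · exact hback i' j' g h7 h8 ((h10.trans h5).trans h9)

end Pool.Agent.Lib.P901b45c
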