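import Pool.Agent.Lib.P901b45.Split
import Pool.Agent.Lib.P901b45.Union
import Pool.Agent.Lib.P901b45c.State

/-
Splitting a good state of a family of strongly base orderable matroids into two families
of independent sets.
-/

namespace Pool.Agent.Lib.P901b45c

open Pool.Agent.Lib.P901b45

section Pairing

variable {α : Type*} [DecidableEq α]

/-- a finite set with a fixed point free involution is even -/
theorem even_card_of_fpf (F : Finset α) (t : α → α)
    (ht : ∀ x ∈ F, t x ∈ F ∧ t (t x) = x ∧ t x ≠ x) : Even F.card := by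
  have h1 : ∑ x ∈ F, (1 : ZMod 2) = 0 := by
    refine Finset.sum_involution (fun a _ => t a) ?_ ?_ ?_ ?_
    · intro a ha
      decide
    · intro a ha _
      exact (ht a ha).2.2
    · intro a ha
      exact (ht a ha).1
    · intro a ha
      exact (ht a ha).2.1
  rw [Finset.sum_const, nsmul_eq_mul, mul_one] at h1
  exact (ZMod.natCast_eq_zero_iff_even).1 h1

/-- The pairing of the symmetric difference of two independent sets of the same size of a
strongly base orderable matroid. -/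
theorem exists_pairing {M : Matroid α} (hM : StronglyBaseOrderable M) {S R₁ R₂ : Finset α}
    (h1 : M.Indep ((S ∪ R₁ : Finset α) : Set α)) (h2 : M.Indep ((S ∪ R₂ : Finset α) : Set α))
    (hd : Disjoint R₁ R₂) (hS1 : Disjoint S R₁) (hS2 : Disjoint S R₂)
    (hc : R₁.card = R₂.card) :
    ∃ s : α → α, (∀ x ∈ R₁ ∪ R₂, s x ∈ R₁ ∪ R₂ ∧ s (s x) = x ∧ s x ≠ x) ∧
      ∀ G ⊆ R₁ ∪ R₂, (∀ x ∈ R₁ ∪ R₂, (s x ∈ G ↔ x ∉ G)) →
        M.Indep ((S ∪ G : Finset α) : Set α) := by
  obtain ⟨s₀, hs₀, hG₀⟩ := exchange_partial hM h1 h2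
  have hsymm : symmDiff ((S ∪ R₁ : Finset α) : Set α) ((S ∪ R₂ : Finset α) : Set α) =
      ((R₁ ∪ R₂ : Finset α) : Set α) := by
    ext x
    have a1 : x ∈ R₁ → x ∉ R₂ := fun h => Finset.disjoint_left.1 hd h
    have a2 : x ∈ S → x ∉ R₁ := fun h => Finset.disjoint_left.1 hS1 h
    have a3 : x ∈ S → x ∉ R₂ := fun h => Finset.disjoint_left.1 hS2 h
    rw [Set.mem_symmDiff]
    simp only [Finset.mem_coe, Finset.mem_union]
    tauto
  have hinter : ((S ∪ R₁ : Finset α) : Set α) ∩ ((S ∪ R₂ : Finset α) : Set α) = (S : Set α) := by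
    ext x
    have a1 : x ∈ R₁ → x ∉ R₂ := fun h => Finset.disjoint_left.1 hd h
    rw [Set.mem_inter_iff]
    simp only [Finset.mem_coe, Finset.mem_union]
    tauto
  rw [hsymm] at hs₀ hG₀
  rw [hinter] at hG₀
  have hZe : (R₁ ∪ R₂).card = 2 * R₁.card := by
    rw [Finset.card_union_of_disjoint hd]; omega
  have he1 : Even ((R₁ ∪ R₂).filter fun x => ¬ s₀ x = x).card := by
    apply even_card_of_fpf _ s₀
    intro x hx
    obtain ⟨h3, h4⟩ := Finset.mem_filter.1 hx
    obtain ⟨h5, h6⟩ := hs₀ x (Finset.mem_coe.2 h3)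
    refine ⟨Finset.mem_filter.2 ⟨Finset.mem_coe.1 h5, ?_⟩, h6, h4⟩
    rw [h6]
    exact fun h => h4 h.symm
  have he2 : Even ((R₁ ∪ R₂).filter fun x => s₀ x = x).card := by
    have h3 := Finset.card_filter_add_card_filter_not (s := R₁ ∪ R₂) (fun x => s₀ x = x)
    obtain ⟨m, hm⟩ := he1
    exact ⟨R₁.card - m, by omega⟩
  obtain ⟨n, hn⟩ := he2
  obtain ⟨t, ht⟩ := exists_fpf n ((R₁ ∪ R₂).filter fun x => s₀ x = x) (by omega)
  refine ⟨fun x => if s₀ x = x then t x else s₀ x, ?_, ?_⟩
  · intro x hx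
    obtain ⟨h5, h6⟩ := hs₀ x (Finset.mem_coe.2 hx)
    by_cases h : s₀ x = x
    · obtain ⟨h7, h8, h9⟩ := ht x (Finset.mem_filter.2 ⟨hx, h⟩)
      obtain ⟨h10, h11⟩ := Finset.mem_filter.1 h7
      simp only [h, if_true, h11]
      exact ⟨h10, h8, h9⟩
    · have h12 : ¬ x = s₀ x := fun h' => h h'.symm
      simp only [h, if_false, h6, h12]
      exact ⟨Finset.mem_coe.1 h5, trivial, h⟩
  · intro G hG hGs
    have h3 := hG₀ (G : Set α) (fun x hx => by
      exact Finset.mem_coe.2 (hG (Finset.mem_coe.1 hx))) (by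
      intro x hx hne
      have := hGs x (Finset.mem_coe.1 hx)
      simp only [hne, if_false] at this
      exact_mod_cast this)
    rw [Finset.coe_union]
    exact h3

end Pairing

variable {α ι : Type*} [Fintype α] [DecidableEq α] [Fintype ι] [DecidableEq ι]

/-- truncated rank functions -/
noncomputable def tr (M : ι → Matroid α) (k : ι → ℕ) (i : ι) (A : Finset α) : ℕ :=
  min (rk (M i) A) (k i)

omit [Fintype α] [Fintype ι] [DecidableEq ι] in
theorem tr_sub (M : ι → Matroid α) (k : ι → ℕ) (i : ι) (A B : Finset α) :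
    tr M k i (A ∪ B) + tr M k i (A ∩ B) ≤ tr M k i A + tr M k i B := by
  unfold tr
  have h1 := rk_submod (M i) A B
  have h2 := rk_mono (M i) (Finset.inter_subset_left (s₁ := A) (s₂ := B))
  have h3 := rk_mono (M i) (Finset.inter_subset_right (s₁ := A) (s₂ := B))
  have h4 := rk_mono (M i) (Finset.subset_union_left (s₁ := A) (s₂ := B))
  have h5 := rk_mono (M i) (Finset.subset_union_right (s₁ := A) (s₂ := B))
  omega

omit [Fintype α] [DecidableEq α] [Fintype ι] [DecidableEq ι] in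
theorem tr_le_card (M : ι → Matroid α) (k : ι → ℕ) (i : ι) (A : Finset α) :
    tr M k i A ≤ A.card := (min_le_left _ _).trans (rk_le_card (M i) A)

omit [Fintype α] [DecidableEq α] in
theorem St.other {r : ι → Finset α → ℕ} {w : ι → α → ℕ} (hw : St r w) {i : ι} {e : α}
    (h : w i e = 1) : ∃ j, j ≠ i ∧ w j e = 1 := by
  by_contra hcon
  push Not at hcon
  have h1 : ∀ j, j ≠ i → w j e = 0 := by
    intro j hj
    have h2 := hw.add_le hj e
    have h3 := hcon j hj
    omega
  have h2 : ∑ j, w j e = w i e := Finset.sum_eq_single i (fun j _ hj => h1 j hj)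
    (fun h3 => absurd (Finset.mem_univ i) h3)
  have h3 := hw.sum e
  omega

omit [Fintype α] [DecidableEq α] in
theorem St.uniq {r : ι → Finset α → ℕ} {w : ι → α → ℕ} (hw : St r w) {i j j' : ι} {e : α}
    (h : w i e = 1) (hj : j ≠ i) (hj1 : w j e = 1) (hj' : j' ≠ i) (hj1' : w j' e = 1) : j = j' := by
  by_contra hne
  have h1 : ∑ x ∈ {i, j, j'}, w x e ≤ ∑ x, w x e :=
    Finset.sum_le_sum_of_subset (Finset.subset_univ _)
  rw [hw.sum e, Finset.sum_insert (by simp [Ne.symm hj, Ne.symm hj']),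
    Finset.sum_pair hne] at h1
  omega

/-- Splitting a good state. -/
theorem exists_split (M : ι → Matroid α) (hM : ∀ i, StronglyBaseOrderable (M i)) (k : ι → ℕ)
    (w ρ : ι → α → ℕ) (hw : St (tr M k) w) (huniv : ∀ i, Tt (tr M k) w i Finset.univ)
    (hk : ∀ i, tr M k i Finset.univ = k i)
    (hρ : ∀ i j e, w i e = 1 → w j e = 1 → i ≠ j → ρ i e ≠ ρ j e) :
    ∃ B C : ι → Finset α, (∀ i, (M i).Indep (B i : Set α)) ∧ (∀ i, (M i).Indep (C i : Set α)) ∧
      (∀ i, (B i).card = k i) ∧ (∀ i, (C i).card = k i) ∧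
      (∀ i e, w i e = (if e ∈ B i then 1 else 0) + (if e ∈ C i then 1 else 0)) ∧
      (∀ i j e, w i e = 1 → w j e = 1 → i ≠ j → e ∈ B i → e ∉ B j → ρ i e < ρ j e) := by
  classical
  have hw2 : ∀ i e, w i e ≤ 2 := by
    intro i e
    have h1 := hw.le i {e}
    rw [Finset.sum_singleton] at h1
    have h2 := tr_le_card M k i {e}
    rw [Finset.card_singleton] at h2
    omega
  obtain ⟨S, hSdef⟩ : ∃ S : ι → Finset α, S = fun i => Finset.univ.filter fun e => w i e = 2 :=
    ⟨_, rfl⟩
  obtain ⟨Z, hZdef⟩ : ∃ Z : ι → Finset α, Z = fun i => Finset.univ.filter fun e => w i e = 1 :=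
    ⟨_, rfl⟩
  have hS : ∀ i e, e ∈ S i ↔ w i e = 2 := by
    intro i e
    rw [hSdef, Finset.mem_filter]
    exact ⟨fun h => h.2, fun h => ⟨Finset.mem_univ _, h⟩⟩
  have hZ : ∀ i e, e ∈ Z i ↔ w i e = 1 := by
    intro i e
    rw [hZdef, Finset.mem_filter]
    exact ⟨fun h => h.2, fun h => ⟨Finset.mem_univ _, h⟩⟩
  have hSZ : ∀ i, Disjoint (S i) (Z i) := by
    intro i
    rw [Finset.disjoint_left]
    intro e h1 h2
    rw [hS] at h1
    rw [hZ] at h2
    omega
  have hsum : ∀ i, ∀ T ⊆ Z i, ∑ e ∈ S i ∪ T, w i e = 2 * (S i).card + T.card := by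
    intro i T hT
    rw [Finset.sum_union (Finset.disjoint_of_subset_right hT (hSZ i)),
      Finset.sum_congr rfl fun e he => (hS i e).1 he,
      Finset.sum_congr (s₁ := T) rfl fun e he => (hZ i e).1 (hT he)]
    simp [mul_comm]
  have htot : ∀ i, 2 * (S i).card + (Z i).card = 2 * k i := by
    intro i
    have h1 := hsum i (Z i) (Finset.Subset.refl _)
    have h2 : ∑ e ∈ S i ∪ Z i, w i e = ∑ e, w i e := by
      apply Finset.sum_subset (Finset.subset_univ _)
      intro e _ he
      rw [Finset.mem_union, hS, hZ] at he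
      have := hw2 i e
      omega
    have h3 := huniv i
    unfold Tt at h3
    rw [hk i] at h3
    omega
  have hcov : ∀ i, ∃ R₁ R₂ : Finset α, Disjoint R₁ R₂ ∧ R₁ ∪ R₂ = Z i ∧
      tr M k i (S i ∪ R₁) = (S i ∪ R₁).card ∧ tr M k i (S i ∪ R₂) = (S i ∪ R₂).card := by
    intro i
    refine cov_abstract (tr M k i) (tr M k i) (tr_le_card M k i) (tr_le_card M k i)
      (tr_sub M k i) (tr_sub M k i) (Z i) (S i) (S i) (hSZ i) (hSZ i) ?_
    intro T hT
    have h1 := hsum i T hT
    have h2 := hw.le i (S i ∪ T)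
    omega
  have hpair : ∀ i, ∃ s : α → α, (∀ x ∈ Z i, s x ∈ Z i ∧ s (s x) = x ∧ s x ≠ x) ∧
      ∀ G ⊆ Z i, (∀ x ∈ Z i, (s x ∈ G ↔ x ∉ G)) → (M i).Indep ((S i ∪ G : Finset α) : Set α) := by
    intro i
    obtain ⟨R₁, R₂, hd, hu, h1, h2⟩ := hcov i
    have hS1 : Disjoint (S i) R₁ := Finset.disjoint_of_subset_right
      (by rw [← hu]; exact Finset.subset_union_left) (hSZ i)
    have hS2 : Disjoint (S i) R₂ := Finset.disjoint_of_subset_right
      (by rw [← hu]; exact Finset.subset_union_right) (hSZ i)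
    have hi : ∀ R : Finset α, tr M k i (S i ∪ R) = (S i ∪ R).card →
        (M i).Indep ((S i ∪ R : Finset α) : Set α) ∧ (S i ∪ R).card ≤ k i := by
      intro R hR
      rw [indep_iff_rk]
      have h3 := rk_le_card (M i) (S i ∪ R)
      unfold tr at hR
      constructor <;> omega
    obtain ⟨h3, h4⟩ := hi R₁ h1
    obtain ⟨h5, h6⟩ := hi R₂ h2
    have h7 := htot i
    rw [← hu, Finset.card_union_of_disjoint hd] at h7
    rw [Finset.card_union_of_disjoint hS1] at h4
    rw [Finset.card_union_of_disjoint hS2] at h6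
    obtain ⟨s, hs, hG⟩ := exists_pairing (hM i) h3 h5 hd hS1 hS2 (by omega)
    rw [hu] at hs hG
    exact ⟨s, hs, hG⟩
  choose s hs hG using hpair
  obtain ⟨U, hUdef⟩ : ∃ U : Finset (ι × α), U = Finset.univ.filter fun h => w h.1 h.2 = 1 :=
    ⟨_, rfl⟩
  have hU : ∀ h, h ∈ U ↔ w h.1 h.2 = 1 := by
    intro h
    rw [hUdef, Finset.mem_filter]
    exact ⟨fun h => h.2, fun h => ⟨Finset.mem_univ _, h⟩⟩
  have hoex : ∀ h ∈ U, ∃ j, j ≠ h.1 ∧ w j h.2 = 1 := fun h hh => hw.other ((hU h).1 hh)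
  have hι : ∀ h : ι × α, Nonempty ι := fun h => ⟨h.1⟩
  obtain ⟨o, ho⟩ : ∃ o : ι × α → ι, ∀ h ∈ U, o h ≠ h.1 ∧ w (o h) h.2 = 1 := by
    refine ⟨fun h => if hh : h ∈ U then (hoex h hh).choose else h.1, fun h hh => ?_⟩
    simp only [dif_pos hh]
    exact (hoex h hh).choose_spec
  have hoU : ∀ h ∈ U, (o h, h.2) ∈ U := fun h hh => (hU _).2 (ho h hh).2
  have hoo : ∀ h ∈ U, o (o h, h.2) = h.1 := by
    intro h hh
    obtain ⟨h1, h2⟩ := ho h hh
    obtain ⟨h3, h4⟩ := ho _ (hoU h hh)
    exact hw.uniq h2 h3 h4 (Ne.symm h1) ((hU h).1 hh)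
  obtain ⟨D, hD1, hD2⟩ := exists_colouring U (fun h => (h.1, s h.1 h.2)) (fun h => (o h, h.2))
    (fun h => ρ h.1 h.2 < ρ (o h) h.2)
    (by
      intro h hh
      obtain ⟨h1, h2, h3⟩ := hs h.1 h.2 ((hZ _ _).2 ((hU h).1 hh))
      refine ⟨(hU _).2 ((hZ _ _).1 h1), ?_, ?_⟩
      · simp only [h2]
      · intro h4
        exact h3 (congrArg Prod.snd h4))
    (by
      intro h hh
      refine ⟨hoU h hh, ?_, ?_⟩
      · simp only [hoo h hh]
      · intro h4
        exact (ho h hh).1 (congrArg Prod.fst h4))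
    (by
      intro h hh
      have h1 := hρ h.1 (o h) h.2 ((hU h).1 hh) (ho h hh).2 (Ne.symm (ho h hh).1)
      rcases lt_or_gt_of_ne h1 with h2 | h2
      · exact Or.inl h2
      · refine Or.inr ?_
        show ρ (o h) h.2 < ρ (o (o h, h.2)) h.2
        rw [hoo h hh]
        exact h2)
  have hDs : ∀ i, ∀ e ∈ Z i, D (i, s i e) = !(D (i, e)) := by
    intro i e he
    exact hD1 (i, e) ((hU _).2 ((hZ _ _).1 he))
  have hcardZ : ∀ i, ((Z i).filter fun e => D (i, e) = true).card =
      ((Z i).filter fun e => D (i, e) = false).card := by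
    intro i
    refine Finset.card_nbij' (s i) (s i) ?_ ?_ ?_ ?_
    · intro e he
      obtain ⟨h1, h2⟩ := Finset.mem_filter.1 (Finset.mem_coe.1 he)
      refine Finset.mem_coe.2 (Finset.mem_filter.2 ⟨(hs i e h1).1, ?_⟩)
      rw [hDs i e h1, h2]
      rfl
    · intro e he
      obtain ⟨h1, h2⟩ := Finset.mem_filter.1 (Finset.mem_coe.1 he)
      refine Finset.mem_coe.2 (Finset.mem_filter.2 ⟨(hs i e h1).1, ?_⟩)
      rw [hDs i e h1, h2]
      rfl
    · intro e he
      exact (hs i e (Finset.mem_filter.1 (Finset.mem_coe.1 he)).1).2.1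
    · intro e he
      exact (hs i e (Finset.mem_filter.1 (Finset.mem_coe.1 he)).1).2.1
  have hcardZ' : ∀ i, ((Z i).filter fun e => D (i, e) = true).card +
      ((Z i).filter fun e => D (i, e) = false).card = (Z i).card := by
    intro i
    have h1 := Finset.card_filter_add_card_filter_not (s := Z i) (fun e => D (i, e) = true)
    rw [← h1]
    congr 2
    ext e
    simp
  refine ⟨fun i => S i ∪ (Z i).filter fun e => D (i, e) = true,
    fun i => S i ∪ (Z i).filter fun e => D (i, e) = false, ?_, ?_, ?_, ?_, ?_, ?_⟩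
  · intro i
    refine hG i _ (Finset.filter_subset _ _) ?_
    intro e he
    have h1 := (hs i e he).1
    simp only [Finset.mem_filter, h1, he, true_and]
    rw [hDs i e he]
    cases D (i, e) <;> simp
  · intro i
    refine hG i _ (Finset.filter_subset _ _) ?_
    intro e he
    have h1 := (hs i e he).1
    simp only [Finset.mem_filter, h1, he, true_and]
    rw [hDs i e he]
    cases D (i, e) <;> simp
  · intro i
    show (S i ∪ (Z i).filter fun e => D (i, e) = true).card = k i
    rw [Finset.card_union_of_disjoint (Finset.disjoint_of_subset_right (Finset.filter_subset _ _)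
      (hSZ i))]
    have h1 := hcardZ i
    have h2 := hcardZ' i
    have h3 := htot i
    omega
  · intro i
    show (S i ∪ (Z i).filter fun e => D (i, e) = false).card = k i
    rw [Finset.card_union_of_disjoint (Finset.disjoint_of_subset_right (Finset.filter_subset _ _)
      (hSZ i))]
    have h1 := hcardZ i
    have h2 := hcardZ' i
    have h3 := htot i
    omega
  · intro i e
    simp only [Finset.mem_union, Finset.mem_filter, hS, hZ]
    have h1 := hw2 i e
    have h2 : w i e = 0 ∨ w i e = 1 ∨ w i e = 2 := by omega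
    rcases h2 with h2 | h2 | h2
    · simp [h2]
    · cases h3 : D (i, e) <;> simp [h2, h3]
    · simp [h2]
  · intro i j e hi hj hij hB hB'
    simp only [Finset.mem_union, Finset.mem_filter, hS, hZ, hi, hj, true_and] at hB hB'
    have h1 : D (i, e) = true := by
      rcases hB with h1 | h1
      · omega
      · exact h1
    have h2 : D (j, e) = false := by
      have : ¬ D (j, e) = true := fun h3 => hB' (Or.inr h3)
      simpa using this
    have hiU : (i, e) ∈ U := (hU _).2 hi
    have hoj : o (i, e) = j := by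
      obtain ⟨h3, h4⟩ := ho _ hiU
      exact hw.uniq hi h3 h4 (Ne.symm hij) hj
    have h3 := hD2 (i, e) hiU h1 (by
      show D (o (i, e), e) = false
      rw [hoj]
      exact h2)
    have h4 : ρ i e < ρ (o (i, e)) e := h3
    rwa [hoj] at h4

end Pool.Agent.Lib.P901b45c
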