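import Pool.Agent.Lib.P901b45c.Split

/-
The vertex of the polytope of a sum of strongly base orderable rank functions.
-/

namespace Pool.Agent.Lib.P901b45c

open Pool.Agent.Lib.P901b45

section Rank

variable {α : Type*} [DecidableEq α]

theorem indep_sub (M : Matroid α) {Y Z : Finset α} (hY : rk M Y = Y.card) (hZ : Z ⊆ Y) :
    rk M Z = Z.card := by
  rw [← indep_iff_rk] at hY ⊢
  exact hY.subset (by exact_mod_cast hZ)

theorem insert_mono (M : Matroid α) {Z W : Finset α} {a : α} (hZW : Z ⊆ W)
    (h : rk M (insert a Z) = rk M Z) : rk M (insert a W) = rk M W := by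
  have h1 := rk_submod M W (insert a Z)
  have h2 : W ∪ insert a Z = insert a W := by
    rw [Finset.union_insert, Finset.union_eq_left.2 hZW]
  have h3 := rk_mono M (show Z ⊆ W ∩ insert a Z from
    Finset.subset_inter hZW (Finset.subset_insert a Z))
  have h4 := rk_mono M (Finset.subset_insert a W)
  rw [h2, h] at h1
  omega

theorem rk_span (M : Matroid α) {Y A : Finset α} (h : ∀ a ∈ A, rk M (insert a Y) = rk M Y) :
    rk M (Y ∪ A) = rk M Y := by
  induction A using Finset.induction_on with
  | empty => simp
  | insert a A _ ih =>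
    rw [Finset.union_insert, insert_mono M Finset.subset_union_left (h a (Finset.mem_insert_self a A))]
    exact ih fun b hb => h b (Finset.mem_insert_of_mem hb)

theorem rk_insert_le (M : Matroid α) (a : α) (Y : Finset α) :
    rk M (insert a Y) ≤ rk M Y + rk M {a} := by
  have h1 := rk_submod M Y {a}
  rw [Finset.union_comm, ← Finset.insert_eq] at h1
  omega

end Rank

variable {α ι : Type*} [Fintype α] [DecidableEq α] [Fintype ι] [DecidableEq ι]

/-- The sum of the rank functions of a finite family of matroids. -/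
noncomputable def famSum (M : ι → Matroid α) (S : Finset α) : ℕ := ∑ i, rk (M i) S

omit [Fintype α] [DecidableEq α] [DecidableEq ι] in
/-- at most two of the matroids have a given element as a nonloop -/
theorem three_loops {M : ι → Matroid α} {e : α} (h2 : famSum M {e} ≤ 2) {i j l : ι} (hij : i ≠ j)
    (hil : i ≠ l) (hjl : j ≠ l) (hi : rk (M i) {e} ≠ 0) (hj : rk (M j) {e} ≠ 0)
    (hl : rk (M l) {e} ≠ 0) : False := by
  classical
  have h1 : ∑ x ∈ {i, j, l}, rk (M x) {e} ≤ ∑ x, rk (M x) {e} :=
    Finset.sum_le_sum_of_subset (Finset.subset_univ _)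
  rw [Finset.sum_insert (by simp [hij, hil]), Finset.sum_pair hjl] at h1
  unfold famSum at h2
  omega

/-- the number of the sets of a family which contain `e` -/
def mult (Y : ι → Finset α) (e : α) : ℕ := ∑ i, if e ∈ Y i then 1 else 0

omit [Fintype α] [DecidableEq ι] in
theorem sum_mult (Y : ι → Finset α) (A : Finset α) :
    ∑ e ∈ A, mult Y e = ∑ i, (Y i ∩ A).card := by
  unfold mult
  rw [Finset.sum_comm]
  refine Finset.sum_congr rfl fun i _ => ?_
  rw [← Finset.card_filter]
  congr 1
  ext e
  simp only [Finset.mem_filter, Finset.mem_inter]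
  tauto

omit [Fintype α] [DecidableEq ι] in
theorem sum_mult_le {M : ι → Matroid α} {Y : ι → Finset α}
    (hY : ∀ i, (M i).Indep (Y i : Set α)) (A : Finset α) : ∑ e ∈ A, mult Y e ≤ famSum M A := by
  rw [sum_mult]
  refine Finset.sum_le_sum fun i _ => ?_
  have h1 := indep_sub (M i) ((indep_iff_rk _ _).1 (hY i)) (Finset.inter_subset_left (s₂ := A))
  rw [← h1]
  exact rk_mono _ Finset.inter_subset_right

omit [Fintype α] in
theorem mult_pos {Y : ι → Finset α} {e : α} {i : ι} (h : e ∈ Y i) : 1 ≤ mult Y e := by
  unfold mult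
  have h1 := Finset.single_le_sum (f := fun i => if e ∈ Y i then 1 else 0)
    (fun _ _ => Nat.zero_le _) (Finset.mem_univ i)
  simpa [h] using h1

omit [Fintype α] in
theorem mult_two {Y : ι → Finset α} {e : α} {i j : ι} (hij : i ≠ j) (h : e ∈ Y i) (h' : e ∈ Y j) :
    2 ≤ mult Y e := by
  unfold mult
  have h1 : ∑ x ∈ {i, j}, (if e ∈ Y x then 1 else 0) ≤ ∑ x, if e ∈ Y x then 1 else 0 :=
    Finset.sum_le_sum_of_subset (Finset.subset_univ _)
  rw [Finset.sum_pair hij] at h1
  simpa [h, h'] using h1

omit [Fintype α] [DecidableEq ι] in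
theorem exists_of_mult {Y : ι → Finset α} {e : α} (h : mult Y e ≠ 0) : ∃ i, e ∈ Y i := by
  by_contra hcon
  push Not at hcon
  apply h
  unfold mult
  exact Finset.sum_eq_zero fun i _ => by simp [hcon i]

omit [Fintype α] in
theorem exists_two_of_mult {Y : ι → Finset α} {e : α} (h : 2 ≤ mult Y e) :
    ∃ i j, i ≠ j ∧ e ∈ Y i ∧ e ∈ Y j := by
  obtain ⟨i, hi⟩ := exists_of_mult (Y := Y) (e := e) (by omega)
  by_contra hcon
  push Not at hcon
  have h1 : mult Y e = 1 := by
    unfold mult
    rw [Finset.sum_eq_single i]
    · simp [hi]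
    · intro j _ hj
      have := hcon i j (Ne.symm hj) hi
      simp [this]
    · intro h2
      exact absurd (Finset.mem_univ i) h2
  omega

/-- **Main theorem.** -/
theorem exists_vertex (M : ι → Matroid α) (hM : ∀ i, StronglyBaseOrderable (M i))
    (h2 : ∀ e, famSum M {e} ≤ 2)
    (hinit : ∃ c : α → ι, ∀ i, (M i).Indep ((Finset.univ.filter fun e => c e = i : Finset α) : Set α)) :
    ∃ v ∈ Set.extremePoints ℝ (Poly (famSum M)), (fun e => 2 - v e) ∈ Poly (famSum M) := by
  classical
  obtain ⟨c, hc⟩ := hinit
  obtain ⟨k, hkdef⟩ : ∃ k : ι → ℕ, k = fun i => (Finset.univ.filter fun e => c e = i).card :=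
    ⟨_, rfl⟩
  have hrkc : ∀ i, rk (M i) (Finset.univ.filter fun e => c e = i) = k i := by
    intro i
    rw [hkdef]
    exact (indep_iff_rk _ _).1 (hc i)
  have hk : ∀ i, tr M k i Finset.univ = k i := by
    intro i
    unfold tr
    have h1 := rk_mono (M i) (Finset.filter_subset (fun e => c e = i) Finset.univ)
    rw [hrkc i] at h1
    omega
  have hsat : ∑ i, tr M k i Finset.univ = Fintype.card α := by
    rw [Finset.sum_congr rfl fun i _ => hk i, hkdef]
    rw [← Finset.card_univ (α := α)]
    exact (Finset.card_eq_sum_card_fiberwise (f := c) (s := Finset.univ) (t := Finset.univ)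
      fun _ _ => Finset.mem_coe.2 (Finset.mem_univ _)).symm
  have h0 : ∃ w, St (tr M k) w := by
    refine ⟨fun i e => if c e = i then 2 else 0, ?_, ?_⟩
    · intro i A
      have h1 : ∑ e ∈ A, (if c e = i then 2 else 0) = 2 * (A.filter fun e => c e = i).card := by
        rw [← Finset.sum_filter, Finset.sum_const, smul_eq_mul, mul_comm]
      rw [h1]
      have h3 : (A.filter fun e => c e = i) ⊆ Finset.univ.filter fun e => c e = i :=
        Finset.filter_subset_filter _ (Finset.subset_univ _)
      have h4 := indep_sub (M i) ((indep_iff_rk _ _).1 (hc i)) h3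
      have h5 := rk_mono (M i) (Finset.filter_subset (fun e => c e = i) A)
      have h6 := Finset.card_le_card h3
      have h7 : k i = (Finset.univ.filter fun e => c e = i).card := by rw [hkdef]
      unfold tr
      omega
    · intro e
      simp
  obtain ⟨w, ρ, hw, huniv, hρ1, hρ2, hρ3⟩ := exists_state (tr_sub M k) hsat h0
  obtain ⟨B, C, hB, hC, hBk, hCk, hwBC, hor⟩ := exists_split M hM k w ρ hw huniv hk hρ3
  have hwle : ∀ i e, w i e ≤ 2 * rk (M i) {e} := by
    intro i e
    have h1 := hw.le i {e}
    rw [Finset.sum_singleton] at h1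
    have h3 : tr M k i {e} ≤ rk (M i) {e} := min_le_left _ _
    omega
  have hmem1 : ∀ {Y : ι → Finset α}, (∀ i, (M i).Indep (Y i : Set α)) → ∀ i e, e ∈ Y i →
      rk (M i) {e} ≠ 0 := by
    intro Y hY i e he
    have h1 := indep_sub (M i) ((indep_iff_rk _ _).1 (hY i)) (Finset.singleton_subset_iff.2 he)
    rw [h1]
    simp
  have hmult2 : ∀ {Y : ι → Finset α}, (∀ i, (M i).Indep (Y i : Set α)) → ∀ e, mult Y e ≤ 2 := by
    intro Y hY e
    have h1 := sum_mult_le hY {e}
    rw [Finset.sum_singleton] at h1
    exact h1.trans (h2 e)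
  have hBC : ∀ e, mult B e + mult C e = 2 := by
    intro e
    have h1 := hw.sum e
    rw [Finset.sum_congr rfl fun i _ => hwBC i e, Finset.sum_add_distrib] at h1
    exact h1
  -- the free pairs
  let F : α → ι → Prop := fun e i => rk (M i) {e} ≠ 0 ∧ e ∉ B i ∧ mult B e = 1
  -- the maximal extension of `B`
  have hYex : ∀ i, ∃ Y : Finset α, B i ⊆ Y ∧ (∀ e ∈ Y, e ∈ B i ∨ F e i) ∧
      (M i).Indep (Y : Set α) ∧ ∀ e, F e i → rk (M i) (insert e Y) = rk (M i) Y := by
    intro i
    obtain ⟨Y, hY, hmax⟩ := Finset.exists_max_image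
      ((Finset.univ : Finset (Finset α)).filter fun Y => B i ⊆ Y ∧ (∀ e ∈ Y, e ∈ B i ∨ F e i) ∧
        (M i).Indep (Y : Set α)) Finset.card
      ⟨B i, Finset.mem_filter.2 ⟨Finset.mem_univ _, Finset.Subset.refl _,
        fun e he => Or.inl he, hB i⟩⟩
    obtain ⟨_, h3, h4, h5⟩ := Finset.mem_filter.1 hY
    refine ⟨Y, h3, h4, h5, fun e he => ?_⟩
    by_contra hne
    have h6 := rk_mono (M i) (Finset.subset_insert e Y)
    have h7 : rk (M i) Y = Y.card := (indep_iff_rk _ _).1 h5
    have h8 := rk_le_card (M i) (insert e Y)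
    have h9 := Finset.card_insert_le e Y
    have h10 : rk (M i) (insert e Y) = (insert e Y).card := by omega
    have h11 := hmax (insert e Y) (Finset.mem_filter.2 ⟨Finset.mem_univ _,
      h3.trans (Finset.subset_insert e Y), ?_, (indep_iff_rk _ _).2 h10⟩)
    · omega
    · intro x hx
      rcases Finset.mem_insert.1 hx with h12 | h12
      · rw [h12]; exact Or.inr he
      · exact h4 x h12
  choose Y hBY hYF hYi hYmax using hYex
  have hYrk : ∀ i, rk (M i) (Y i) = (Y i).card := fun i => (indep_iff_rk _ _).1 (hYi i)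
  have hle : ∀ e, mult B e ≤ mult Y e := by
    intro e
    unfold mult
    refine Finset.sum_le_sum fun i _ => ?_
    by_cases h : e ∈ B i
    · simp [h, hBY i h]
    · simp [h]
  -- new elements have value two
  have hnew : ∀ i e, e ∈ Y i → e ∉ B i → mult Y e = 2 := by
    intro i e he he'
    rcases hYF i e he with h | h
    · exact absurd h he'
    · obtain ⟨j, hj⟩ := exists_of_mult (Y := B) (e := e) (by rw [h.2.2]; exact one_ne_zero)
      have hij : i ≠ j := fun h' => he' (h' ▸ hj)
      have h3 := mult_two hij he (hBY j hj)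
      have h4 := hmult2 hYi e
      omega
  have hone' : ∀ e, mult Y e = 1 → mult B e = 1 := by
    intro e he
    obtain ⟨i, hi⟩ := exists_of_mult (Y := Y) (e := e) (by omega)
    by_cases hiB : e ∈ B i
    · have h3 := mult_pos hiB
      have h4 := hle e
      omega
    · have := hnew i e hi hiB
      omega
  -- key property of the order
  have key : ∀ i a, F a i → ∃ L : Finset α, a ∈ L ∧ (B i ∩ L).card = min (rk (M i) L) (k i) ∧
      ∀ b ∈ L, b ∈ B i → ∀ j, F b j → ρ i a < ρ j b := by
    intro i a ha
    obtain ⟨L, hL1, hL2, hL3⟩ := exists_least hw (tr_sub M k) huniv i a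
    refine ⟨L, hL2, ?_, ?_⟩
    · have h3 : ∑ e ∈ L, w i e = (B i ∩ L).card + (C i ∩ L).card := by
        rw [Finset.sum_congr rfl fun e _ => hwBC i e, Finset.sum_add_distrib,
          ← Finset.card_filter, ← Finset.card_filter]
        congr 2
        · ext e
          simp only [Finset.mem_filter, Finset.mem_inter]
          tauto
        · ext e
          simp only [Finset.mem_filter, Finset.mem_inter]
          tauto
      have h4 : ∀ X : Finset α, (M i).Indep (X : Set α) → X.card = k i →
          (X ∩ L).card ≤ min (rk (M i) L) (k i) := by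
        intro X hX hXk
        have h5 := indep_sub (M i) ((indep_iff_rk _ _).1 hX) (Finset.inter_subset_left (s₂ := L))
        have h6 := rk_mono (M i) (Finset.inter_subset_right (s₁ := X) (s₂ := L))
        have h7 := Finset.card_le_card (Finset.inter_subset_left (s₁ := X) (s₂ := L))
        omega
      have h5 := h4 (B i) (hB i) (hBk i)
      have h6 := h4 (C i) (hC i) (hCk i)
      unfold Tt tr at hL1
      omega
    · intro b hbL hbB j hFb
      have hij : i ≠ j := fun h' => hFb.2.1 (h' ▸ hbB)
      have h3 : ρ i a ≤ ρ i b := hρ1 i a b fun A hA haA => hL3 A hA haA hbL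
      refine lt_of_le_of_lt h3 ?_
      have hbi : rk (M i) {b} ≠ 0 := hmem1 hB i b hbB
      have h4 : w i b + w j b = 2 := by
        rw [← hw.sum b]
        refine (Fintype.sum_eq_add (f := fun l => w l b) i j hij fun l hl => ?_).symm
        by_contra hne
        have h5 := hwle l b
        exact three_loops (h2 b) hij (Ne.symm hl.1) (Ne.symm hl.2) hbi hFb.1 (by omega)
      have h5 := hwBC i b
      have h6 : w i b ≠ 0 := by
        rw [h5, if_pos hbB]
        omega
      have h7 : w i b = 1 ∨ w i b = 2 := by omega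
      rcases h7 with h7 | h7
      · exact hor i j b h7 (by omega) hij hbB hFb.2.1
      · exact hρ2 i j b h7 hij
  -- tight sets
  have htight : ∀ (r : ℕ) (A : Finset α),
      (∀ e, (mult Y e = 2 ∨ (mult Y e = 1 ∧ ∀ j, F e j → r < ρ j e)) → e ∈ A) →
      (∀ e ∈ A, mult Y e = 2 ∨ (mult Y e = 1 ∧ ∀ j, F e j → r ≤ ρ j e)) →
      ∑ e ∈ A, mult Y e = famSum M A := by
    intro r A hA1 hA2
    rw [sum_mult]
    refine Finset.sum_congr rfl fun i _ => ?_
    have h3 : rk (M i) (Y i ∩ A) = (Y i ∩ A).card :=
      indep_sub (M i) (hYrk i) Finset.inter_subset_left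
    rw [← h3]
    have h4 : rk (M i) ((Y i ∩ A) ∪ A) = rk (M i) (Y i ∩ A) := by
      apply rk_span
      intro a haA
      by_cases haY : a ∈ Y i
      · rw [Finset.insert_eq_of_mem (Finset.mem_inter.2 ⟨haY, haA⟩)]
      · by_cases hai : rk (M i) {a} = 0
        · have h5 := rk_insert_le (M i) a (Y i ∩ A)
          have h6 := rk_mono (M i) (Finset.subset_insert a (Y i ∩ A))
          omega
        · -- `a` has the value one
          have ha1 : mult Y a = 1 ∧ ∀ j, F a j → r ≤ ρ j a := by
            rcases hA2 a haA with h5 | h5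
            · exfalso
              obtain ⟨j, l, hjl, hj, hl⟩ := exists_two_of_mult (Y := Y) (e := a) (by omega)
              have hij : i ≠ j := fun h' => haY (h' ▸ hj)
              have hil : i ≠ l := fun h' => haY (h' ▸ hl)
              exact three_loops (h2 a) hij hil hjl hai (hmem1 hYi j a hj) (hmem1 hYi l a hl)
            · exact h5
          have hFa : F a i := ⟨hai, fun h' => haY (hBY i h'), hone' a ha1.1⟩
          have hra := ha1.2 i hFa
          obtain ⟨L, haL, hLc, hLo⟩ := key i a hFa
          have hBL : ∀ b ∈ B i, b ∈ L → b ∈ A := by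
            intro b hb hbL
            apply hA1
            have h5 := mult_pos (hBY i hb)
            have h6 := hmult2 hYi b
            have h7 : mult Y b = 2 ∨ mult Y b = 1 := by omega
            rcases h7 with h7 | h7
            · exact Or.inl h7
            · exact Or.inr ⟨h7, fun j hj => lt_of_le_of_lt hra (hLo b hbL hb j hj)⟩
          by_cases hcase : rk (M i) L ≤ k i
          · have h5 : rk (M i) (B i ∩ L) = (B i ∩ L).card :=
              indep_sub (M i) ((indep_iff_rk _ _).1 (hB i)) Finset.inter_subset_left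
            have h6 : rk (M i) (insert a (B i ∩ L)) ≤ rk (M i) L :=
              rk_mono _ (Finset.insert_subset haL Finset.inter_subset_right)
            have h7 := rk_mono (M i) (Finset.subset_insert a (B i ∩ L))
            have h8 : rk (M i) (insert a (B i ∩ L)) = rk (M i) (B i ∩ L) := by omega
            refine insert_mono (M i) ?_ h8
            intro b hb
            obtain ⟨hb1, hb2⟩ := Finset.mem_inter.1 hb
            exact Finset.mem_inter.2 ⟨hBY i hb1, hBL b hb1 hb2⟩
          · have h5 : (B i ∩ L).card = (B i).card := by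
              rw [hBk i]
              omega
            have h6 : B i ∩ L = B i :=
              Finset.eq_of_subset_of_card_le Finset.inter_subset_left h5.ge
            have h7 : Y i ∩ A = Y i := by
              refine Finset.inter_eq_left.2 fun b hb => ?_
              by_cases hbB : b ∈ B i
              · rw [← h6] at hbB
                exact hBL b (Finset.mem_inter.1 hbB).1 (Finset.mem_inter.1 hbB).2
              · exact hA1 b (Or.inl (hnew i b hb hbB))
            rw [h7]
            exact hYmax i a hFa
    have h5 : (Y i ∩ A) ∪ A = A := Finset.union_eq_right.2 Finset.inter_subset_right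
    rw [h5] at h4
    exact h4.symm
  -- membership
  have hmem : (fun e => (mult Y e : ℝ)) ∈ Poly (famSum M) := by
    refine ⟨fun e => Nat.cast_nonneg _, fun A => ?_⟩
    have := sum_mult_le hYi A
    show ∑ e ∈ A, (mult Y e : ℝ) ≤ _
    exact_mod_cast this
  refine ⟨fun e => (mult Y e : ℝ), ?_, ?_⟩
  · rw [mem_extremePoints_iff_left]
    refine ⟨hmem, ?_⟩
    intro x₁ hx₁ x₂ hx₂ hseg
    obtain ⟨p, q, hp, hq, hpq, hx⟩ := hseg
    have hxe : ∀ e, p * x₁ e + q * x₂ e = mult Y e := by
      intro e
      have := congrFun hx e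
      simpa using this
    have htt : ∀ X : Finset α, ∑ e ∈ X, mult Y e = famSum M X →
        ∑ e ∈ X, x₁ e = ∑ e ∈ X, (mult Y e : ℝ) := by
      intro X hX
      have h1 : p * ∑ e ∈ X, x₁ e + q * ∑ e ∈ X, x₂ e = ∑ e ∈ X, (mult Y e : ℝ) := by
        rw [Finset.mul_sum, Finset.mul_sum, ← Finset.sum_add_distrib]
        exact Finset.sum_congr rfl fun e _ => hxe e
      have h3 := hx₁.2 X
      have h4 := hx₂.2 X
      have hX' : ∑ e ∈ X, (mult Y e : ℝ) = (famSum M X : ℝ) := by exact_mod_cast hX
      rw [← hX'] at h3 h4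
      apply le_antisymm h3
      by_contra hcon
      push Not at hcon
      have h5 : p * ∑ e ∈ X, x₁ e < p * ∑ e ∈ X, (mult Y e : ℝ) := mul_lt_mul_of_pos_left hcon hp
      have h6 : q * ∑ e ∈ X, x₂ e ≤ q * ∑ e ∈ X, (mult Y e : ℝ) :=
        mul_le_mul_of_nonneg_left h4 hq.le
      have h7 : p * ∑ e ∈ X, (mult Y e : ℝ) + q * ∑ e ∈ X, (mult Y e : ℝ) =
          ∑ e ∈ X, (mult Y e : ℝ) := by
        rw [← add_mul, hpq, one_mul]
      linarith
    have hstep : ∀ (X : Finset α) (e : α), e ∉ X → ∑ y ∈ X, mult Y y = famSum M X →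
        ∑ y ∈ insert e X, mult Y y = famSum M (insert e X) → x₁ e = mult Y e := by
      intro X e he h1 h3
      have h4 := htt X h1
      have h5 := htt _ h3
      rw [Finset.sum_insert he, Finset.sum_insert he] at h5
      linarith
    have hempty : ∑ y ∈ (∅ : Finset α), mult Y y = famSum M ∅ := by
      have h1 : famSum M ∅ = 0 := by
        unfold famSum
        refine Finset.sum_eq_zero fun i _ => ?_
        have := rk_le_card (M i) ∅
        simpa using this
      rw [h1, Finset.sum_empty]
    funext e
    have hme := hmult2 hYi e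
    have hcases : mult Y e = 0 ∨ mult Y e = 1 ∨ mult Y e = 2 := by omega
    rcases hcases with h | h | h
    · -- the value zero
      have h3 := hx₁.1 e
      have h4 := hx₂.1 e
      have h5 := hxe e
      rw [h] at h5
      show x₁ e = ((mult Y e : ℕ) : ℝ)
      rw [h]
      simp only [Nat.cast_zero] at h5 ⊢
      apply le_antisymm _ h3
      by_contra hcon
      push Not at hcon
      have h6 : 0 < p * x₁ e := mul_pos hp hcon
      have h7 : 0 ≤ q * x₂ e := mul_nonneg hq.le h4
      linarith
    · -- the value one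
      by_cases hfree : ∃ i, F e i ∧ e ∉ Y i
      · obtain ⟨i, hFe, heY⟩ := hfree
        have huF : ∀ j, F e j → j = i := by
          intro j hj
          by_contra hne
          obtain ⟨l, hl⟩ := exists_of_mult (Y := B) (e := e) (by rw [hFe.2.2]; exact one_ne_zero)
          have hli : l ≠ i := fun h' => hFe.2.1 (h' ▸ hl)
          have hlj : l ≠ j := fun h' => hj.2.1 (h' ▸ hl)
          exact three_loops (h2 e) hli hlj (Ne.symm hne) (hmem1 hB l e hl) hFe.1 hj.1
        refine hstep (Finset.univ.filter fun y => mult Y y = 2 ∨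
          (mult Y y = 1 ∧ ∀ j, F y j → ρ i e < ρ j y)) e ?_ ?_ ?_
        · intro h3
          rcases (Finset.mem_filter.1 h3).2 with h4 | h4
          · omega
          · exact lt_irrefl _ (h4.2 i hFe)
        · refine htight (ρ i e) _ ?_ ?_
          · intro y hy
            exact Finset.mem_filter.2 ⟨Finset.mem_univ _, hy⟩
          · intro y hy
            rcases (Finset.mem_filter.1 hy).2 with h4 | h4
            · exact Or.inl h4
            · exact Or.inr ⟨h4.1, fun j hj => (h4.2 j hj).le⟩
        · refine htight (ρ i e) _ ?_ ?_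
          · intro y hy
            exact Finset.mem_insert_of_mem (Finset.mem_filter.2 ⟨Finset.mem_univ _, hy⟩)
          · intro y hy
            rcases Finset.mem_insert.1 hy with h3 | h3
            · rw [h3]
              refine Or.inr ⟨h, fun j hj => ?_⟩
              rw [huF j hj]
            · rcases (Finset.mem_filter.1 h3).2 with h4 | h4
              · exact Or.inl h4
              · exact Or.inr ⟨h4.1, fun j hj => (h4.2 j hj).le⟩
      · -- no free pair
        refine hstep ∅ e (Finset.notMem_empty e) hempty ?_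
        rw [insert_empty_eq, Finset.sum_singleton]
        unfold mult famSum
        refine Finset.sum_congr rfl fun i _ => ?_
        have h3 := rk_le_card (M i) {e}
        rw [Finset.card_singleton] at h3
        by_cases heY : e ∈ Y i
        · rw [if_pos heY]
          have := hmem1 hYi i e heY
          omega
        · rw [if_neg heY]
          by_contra hne
          exact hfree ⟨i, ⟨fun h' => hne h'.symm, fun h' => heY (hBY i h'), hone' e h⟩, heY⟩
    · -- the value two
      have h3 : ∀ x ∈ Poly (famSum M), x e ≤ 2 := by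
        intro x hx
        have h4 := hx.2 {e}
        rw [Finset.sum_singleton] at h4
        have h5 : (famSum M {e} : ℝ) ≤ 2 := by exact_mod_cast h2 e
        linarith
      have h4 := h3 x₁ hx₁
      have h5 := h3 x₂ hx₂
      have h6 := hxe e
      show x₁ e = ((mult Y e : ℕ) : ℝ)
      rw [h] at h6 ⊢
      simp only [Nat.cast_ofNat] at h6 ⊢
      apply le_antisymm h4
      by_contra hcon
      push Not at hcon
      have h7 : p * x₁ e < p * 2 := mul_lt_mul_of_pos_left hcon hp
      have h8 : q * x₂ e ≤ q * 2 := mul_le_mul_of_nonneg_left h5 hq.le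
      have h9 : p * 2 + q * 2 = 2 := by rw [← add_mul, hpq, one_mul]
      linarith
  · refine ⟨fun e => ?_, fun A => ?_⟩
    · have h3 := hmult2 hYi e
      have h4 : (mult Y e : ℝ) ≤ 2 := by exact_mod_cast h3
      show (0 : ℝ) ≤ 2 - (mult Y e : ℝ)
      linarith
    · have h3 : ∑ e ∈ A, (2 - (mult Y e : ℝ)) ≤ ∑ e ∈ A, (mult C e : ℝ) := by
        refine Finset.sum_le_sum fun e _ => ?_
        have h4 := hBC e
        have h5 := hle e
        have h6 : (mult B e : ℝ) + mult C e = 2 := by exact_mod_cast h4
        have h7 : (mult B e : ℝ) ≤ mult Y e := by exact_mod_cast h5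
        linarith
      refine h3.trans ?_
      have h4 := sum_mult_le hC A
      exact_mod_cast h4

end Pool.Agent.Lib.P901b45c
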